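import Pool.Agent.helper70.FI4.SpecK

/-!
# Project fi4 (MP_baa4d7_al), block K, row KIN: inflation of characters
-/

set_option autoImplicit false

namespace Pool.Agent.FI4

open Pool.Agent.helper58.DC Pool.Agent.DI Pool.Agent.GR Pool.Agent.OB Pool.Agent.DR Pool.Agent.FI Pool.Agent.FI3

section

variable {G : Type} [Group G] {Gb : Type} [Group Gb]

/-- the restriction of `π` to the preimage of `N` -/
def KIN_map (π : G →* Gb) (N : Subgroup Gb) : (N.comap π) →* N where
  toFun x := ⟨π x.1, x.2⟩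
  map_one' := by
    apply Subtype.ext
    change π 1 = 1
    exact map_one π
  map_mul' x y := by
    apply Subtype.ext
    change π (x.1 * y.1) = _
    rw [map_mul]
    rfl

theorem KIN_sur {p : ℕ} {R : Subgroup G} {π : G →* Gb} (h : Qn p R π) (N : Subgroup Gb) :
    Function.Surjective (KIN_map π N) := by
  rintro ⟨y, hy⟩
  obtain ⟨a, ha⟩ := h.sur y
  have h1 : a ∈ N.comap π := by
    rw [Subgroup.mem_comap, ha]
    exact hy
  refine ⟨⟨a, h1⟩, ?_⟩
  apply Subtype.ext
  exact ha

end

theorem KIN (hJIR : JIR_stmt) : KIN_stmt := by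
  classical
  intro p G Gb _ _ _ _ R π h
  refine ⟨?_, ?_, ?_, ?_⟩
  · intro f f' hf
    funext y
    obtain ⟨a, ha⟩ := h.sur y
    have h1 := congrFun hf a
    change f (π a) = f' (π a) at h1
    rwa [ha] at h1
  · intro N f hf
    have h1 := (hJIR (N.comap π) N (KIN_map π N) (KIN_sur h N)).1 _ hf.2
    refine ⟨?_, ?_⟩
    · intro x hx
      exact hf.1 _ fun h2 => hx h2
    · exact h1
  · intro N φ hφ hZ
    obtain ⟨χ, hχ, e⟩ := (hJIR (N.comap π) N (KIN_map π N) (KIN_sur h N)).2 _ hφ.2 (by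
      intro z a hz
      have h1 : π z.1 = 1 := congrArg Subtype.val hz
      have h2 : (z : G) ∈ R := (h.ker _).1 h1
      exact hZ z h2 a)
    let f : Gb → ℂ := fun y => if hy : y ∈ N then χ ⟨y, hy⟩ else 0
    have hf : ∀ n : N, f n = χ n := by
      intro n
      change (if hy : (n : Gb) ∈ N then χ ⟨n, hy⟩ else 0) = χ n
      rw [dif_pos n.2]
    refine ⟨f, ⟨?_, ?_⟩, ?_⟩
    · intro y hy
      change (if hy : y ∈ N then χ ⟨y, hy⟩ else 0) = 0
      rw [dif_neg hy]
    · have h2 : (fun n : N => f n) = χ := funext hf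
      rw [h2]
      exact hχ
    · funext x
      by_cases hx : x ∈ N.comap π
      · have h3 := e ⟨x, hx⟩
        have h4 : f (π x) = χ (KIN_map π N ⟨x, hx⟩) := hf (KIN_map π N ⟨x, hx⟩)
        change f (π x) = φ x
        rw [h4]
        exact h3.symm
      · rw [hφ.1 x hx]
        change (if hy : π x ∈ N then χ ⟨_, hy⟩ else 0) = 0
        have h2 : ¬ (π x ∈ N) := fun h2 => hx (Subgroup.mem_comap.2 h2)
        rw [dif_neg h2]
  · intro f r hr x
    rw [map_mul, (h.ker r).2 hr, one_mul]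

end Pool.Agent.FI4
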