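import Pool.Agent.helper70.FI4.SpecK

/-!
# Project fi4 (MP_baa4d7_al), block K, row KPR: `p`-regular elements of a quotient
-/

set_option autoImplicit false

namespace Pool.Agent.FI4

open Pool.Agent.helper58.DC Pool.Agent.DI Pool.Agent.GR Pool.Agent.OB Pool.Agent.DR Pool.Agent.FI Pool.Agent.FI3

theorem KPR_conj {G : Type} [Group G] (R : Subgroup G) (com : ∀ a ∈ R, ∀ b ∈ R, a * b = b * a)
    (nor : ∀ x ∈ R, ∀ g : G, g⁻¹ * x * g ∈ R) (v r : G) (hr : r ∈ R) (m N : ℕ) (hv : v ^ m = 1)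
    (hvr : (v * r) ^ m = 1) (hN : ∀ x ∈ R, x ^ N = 1) (hmN : Nat.Coprime m N) :
    ∃ s ∈ R, v * r = s * v * s⁻¹ := by
  let _inst : CommGroup R :=
    { (inferInstance : Group R) with
      mul_comm := fun a b => Subtype.ext (com a.1 a.2 b.1 b.2) }
  let c : R →* R :=
    { toFun := fun x => ⟨v⁻¹ * x.1 * v, nor x.1 x.2 v⟩
      map_one' := by
        apply Subtype.ext
        change v⁻¹ * 1 * v = 1
        group
      map_mul' := by
        intro x y
        apply Subtype.ext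
        change v⁻¹ * (x.1 * y.1) * v = (v⁻¹ * x.1 * v) * (v⁻¹ * y.1 * v)
        group }
  have hc : ∀ x : R, ((c x : R) : G) = v⁻¹ * x.1 * v := fun x => rfl
  have hbm : ∀ i : ℕ, (v ^ i)⁻¹ * r * v ^ i ∈ R := fun i => nor r hr (v ^ i)
  let b : ℕ → R := fun i => ⟨(v ^ i)⁻¹ * r * v ^ i, hbm i⟩
  have hb : ∀ i, ((b i : R) : G) = (v ^ i)⁻¹ * r * v ^ i := fun i => rfl
  have hcb : ∀ i, c (b i) = b (i + 1) := by
    intro i
    apply Subtype.ext
    rw [hc, hb, hb, pow_succ]
    group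
  have hP : ∀ k : ℕ, (v * r) ^ k = v ^ k * ((∏ i ∈ Finset.range k, b i : R) : G) := by
    intro k
    induction k with
    | zero => simp
    | succ k ih =>
      rw [pow_succ', ih, Finset.prod_range_succ, mul_comm (∏ i ∈ Finset.range k, b i) (b k)]
      rw [Subgroup.coe_mul, hb, pow_succ]
      have h1 : v * r * (v ^ k * ((∏ i ∈ Finset.range k, b i : R) : G)) =
          (v * r * v ^ k) * ((∏ i ∈ Finset.range k, b i : R) : G) := by group
      have h2 : v ^ k * v * ((v ^ k)⁻¹ * r * v ^ k * ((∏ i ∈ Finset.range k, b i : R) : G)) =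
          (v ^ k * v * (v ^ k)⁻¹ * r * v ^ k) * ((∏ i ∈ Finset.range k, b i : R) : G) := by group
      rw [h1, h2]
      have h3 : v ^ k * v * (v ^ k)⁻¹ = v := by
        rw [← pow_succ, pow_succ']
        group
      rw [h3]
  have hT : ∀ k : ℕ, c (∏ i ∈ Finset.range k, (b i) ^ i) * c (∏ i ∈ Finset.range k, b i) =
      (∏ i ∈ Finset.range k, (b i) ^ i) * (b k) ^ k := by
    intro k
    induction k with
    | zero => simp
    | succ k ih =>
      rw [Finset.prod_range_succ, Finset.prod_range_succ, map_mul, map_mul, map_pow, hcb]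
      have h1 : c (∏ i ∈ Finset.range k, (b i) ^ i) * b (k + 1) ^ k *
          (c (∏ i ∈ Finset.range k, b i) * b (k + 1)) =
          (c (∏ i ∈ Finset.range k, (b i) ^ i) * c (∏ i ∈ Finset.range k, b i)) *
            (b (k + 1) ^ k * b (k + 1)) := by
        rw [mul_mul_mul_comm]
      rw [h1, ih, ← pow_succ]
  have hPm : (∏ i ∈ Finset.range m, b i : R) = 1 := by
    apply Subtype.ext
    have h1 := hP m
    rw [hvr, hv, one_mul] at h1
    rw [← h1]
    rfl
  have hbm' : b m = ⟨r, hr⟩ := by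
    apply Subtype.ext
    rw [hb, hv]
    simp
  have hTm := hT m
  rw [hPm, map_one, mul_one, hbm'] at hTm
  -- `k m = 1` modulo `N`
  obtain ⟨k, hk⟩ : ∃ k : ℕ, m * k ≡ 1 [MOD N] := by
    rcases Nat.eq_zero_or_pos N with h0 | h0
    · subst h0
      have hm1 : m = 1 := by
        have := hmN
        rwa [Nat.coprime_zero_right] at this
      exact ⟨1, by rw [hm1]⟩
    · obtain ⟨k, _, hk⟩ := Nat.exists_mul_mod_eq_of_coprime 1 hmN (Nat.pos_iff_ne_zero.1 h0)
      exact ⟨k, hk⟩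
  have hpow : ∀ x : R, x ^ (m * k) = x := by
    intro x
    have h1 : orderOf x ∣ N := by
      apply orderOf_dvd_of_pow_eq_one
      apply Subtype.ext
      rw [Subgroup.coe_pow, hN x.1 x.2]
      rfl
    have h2 : x ^ (m * k) = x ^ 1 := pow_eq_pow_iff_modEq.2 (hk.of_dvd h1)
    rw [h2, pow_one]
  let t : R := ∏ i ∈ Finset.range m, (b i) ^ i
  have ht : c t = t * ⟨r, hr⟩ ^ m := hTm
  have hs : c (t ^ k) = t ^ k * ⟨r, hr⟩ := by
    rw [map_pow, ht, mul_pow, ← pow_mul, hpow]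
  refine ⟨((t ^ k : R) : G), (t ^ k).2, ?_⟩
  have h1 := congrArg Subtype.val hs
  change v⁻¹ * ((t ^ k : R) : G) * v = ((t ^ k : R) : G) * r at h1
  have h2 : ((t ^ k : R) : G) * r = r * ((t ^ k : R) : G) := com _ (t ^ k).2 _ hr
  rw [h2] at h1
  have h3 : r = v⁻¹ * ((t ^ k : R) : G) * v * ((t ^ k : R) : G)⁻¹ := by
    rw [h1]
    group
  calc v * r = v * (v⁻¹ * ((t ^ k : R) : G) * v * ((t ^ k : R) : G)⁻¹) := by rw [← h3]
    _ = ((t ^ k : R) : G) * v * ((t ^ k : R) : G)⁻¹ := by group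

theorem KPR : KPR_stmt := by
  intro p _ G Gb _ _ _ _ R π hQ
  have hp : p.Prime := Fact.out
  refine ⟨?_, ?_, ?_⟩
  · intro y hy
    obtain ⟨a, ha⟩ := hQ.sur y
    have hn : orderOf a ≠ 0 := (orderOf_pos a).ne'
    obtain ⟨e, m, hm, hem⟩ := Nat.exists_eq_pow_mul_and_not_dvd hn p hp.ne_one
    have hcop : Nat.Coprime (p ^ e) (orderOf y) :=
      Nat.Coprime.pow_left e ((Nat.Prime.coprime_iff_not_dvd hp).2 hy)
    obtain ⟨k, hk1, hk2⟩ := Nat.chineseRemainder hcop 0 1
    have hpk : p ^ e ∣ k := (Nat.modEq_zero_iff_dvd).1 hk1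
    refine ⟨a ^ k, ?_, ?_⟩
    · unfold PReg
      intro hdvd
      apply hm
      refine dvd_trans hdvd ?_
      apply orderOf_dvd_of_pow_eq_one
      rw [← pow_mul]
      apply (orderOf_dvd_iff_pow_eq_one).1
      rw [hem]
      exact Nat.mul_dvd_mul_right hpk m
    · rw [map_pow, ha]
      have h0 : y ^ k = y ^ 1 := pow_eq_pow_iff_modEq.2 hk2
      rw [h0, pow_one]
  · intro g hr
    unfold PReg at hr ⊢
    intro hd
    exact hr (hd.trans (orderOf_map_dvd π g))
  · intro v hv r hr hvr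
    have hnor : ∀ x ∈ R, ∀ g : G, g⁻¹ * x * g ∈ R := by
      intro x hx g
      apply (hQ.ker _).1
      rw [map_mul, map_mul, (hQ.ker x).2 hx, mul_one, ← map_mul, inv_mul_cancel, map_one]
    obtain ⟨n, hn⟩ := (IsPGroup.iff_card (p := p) (G := R)).1 hQ.pg
    have hN : ∀ x ∈ R, x ^ Nat.card R = 1 := by
      intro x hx
      have h1 : (⟨x, hx⟩ : R) ^ Nat.card R = 1 := pow_card_eq_one'
      exact congrArg Subtype.val h1
    refine KPR_conj R hQ.com hnor v r hr (orderOf v * orderOf (v * r)) (Nat.card R) ?_ ?_ hN ?_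
    · rw [pow_mul, pow_orderOf_eq_one, one_pow]
    · rw [mul_comm (orderOf v), pow_mul, pow_orderOf_eq_one, one_pow]
    · rw [hn]
      apply Nat.Coprime.pow_right
      apply Nat.Coprime.symm
      apply (Nat.Prime.coprime_iff_not_dvd hp).2
      intro h
      rcases hp.dvd_mul.1 h with h | h
      · exact hv h
      · exact hvr h

end Pool.Agent.FI4
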