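import Pool.Agent.helper59.FI4.SpecI

/-!
# Project fi4 (MP_baa4d7_al), block IND, row TOG: the toggle
-/

set_option autoImplicit false

namespace Pool.Agent.FI4I

open Pool.Agent.helper58.DC Pool.Agent.DI Pool.Agent.GR Pool.Agent.OB Pool.Agent.DR Pool.Agent.FI Pool.Agent.FI3 Pool.Agent.FI4

section

variable {G : Type} [Group G]

theorem TOG_le_nz (D : Subgroup G) (hD : ∀ c ∈ D, ∀ d ∈ D, c * d = d * c) (Q R : Subgroup G) (hQ : Q ≤ D)
    (hR : R ≤ D) : R ≤ nz Q := by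
  intro x hx
  rw [Subgroup.mem_normalizer_iff]
  intro h
  constructor
  · intro hh
    have h1 : x * h * x⁻¹ = h := by
      rw [hD x (hR hx) h (hQ hh)]
      group
    change x * h * x⁻¹ ∈ Q
    rw [h1]
    exact hh
  · intro hh
    have hh' : x * h * x⁻¹ ∈ Q := hh
    have h1 : x * (x * h * x⁻¹) = (x * h * x⁻¹) * x := hD x (hR hx) _ (hQ hh')
    have h2 : h = x * h * x⁻¹ := by
      have h3 : x * h = x * (x * h * x⁻¹) := by
        rw [h1]
        group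
      exact mul_left_cancel h3
    change h ∈ Q
    rw [h2]
    exact hh'

theorem TOG_nz (g : G) (D : Subgroup G) : nz (cjS g D) = cjS g (nz D) := by
  ext x
  rw [mem_cjS, Subgroup.mem_normalizer_iff, Subgroup.mem_normalizer_iff]
  constructor
  · intro h y
    have h1 := h (g * y * g⁻¹)
    have e1 : g * y * g⁻¹ ∈ ((cjS g D : Subgroup G) : Set G) ↔ y ∈ (D : Set G) := by
      change g * y * g⁻¹ ∈ cjS g D ↔ y ∈ D
      rw [mem_cjS]
      have : g⁻¹ * (g * y * g⁻¹) * g = y := by group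
      rw [this]
    have e2 : x * (g * y * g⁻¹) * x⁻¹ ∈ ((cjS g D : Subgroup G) : Set G) ↔
        g⁻¹ * x * g * y * (g⁻¹ * x * g)⁻¹ ∈ (D : Set G) := by
      change x * (g * y * g⁻¹) * x⁻¹ ∈ cjS g D ↔ g⁻¹ * x * g * y * (g⁻¹ * x * g)⁻¹ ∈ D
      rw [mem_cjS]
      have : g⁻¹ * (x * (g * y * g⁻¹) * x⁻¹) * g = g⁻¹ * x * g * y * (g⁻¹ * x * g)⁻¹ := by group
      rw [this]
    exact (e1.symm.trans h1).trans e2
  · intro h y
    have h1 := h (g⁻¹ * y * g)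
    have e1 : y ∈ ((cjS g D : Subgroup G) : Set G) ↔ g⁻¹ * y * g ∈ (D : Set G) := by
      change y ∈ cjS g D ↔ g⁻¹ * y * g ∈ D
      rw [mem_cjS]
    have e2 : x * y * x⁻¹ ∈ ((cjS g D : Subgroup G) : Set G) ↔
        g⁻¹ * x * g * (g⁻¹ * y * g) * (g⁻¹ * x * g)⁻¹ ∈ (D : Set G) := by
      change x * y * x⁻¹ ∈ cjS g D ↔ g⁻¹ * x * g * (g⁻¹ * y * g) * (g⁻¹ * x * g)⁻¹ ∈ D
      rw [mem_cjS]
      have : g⁻¹ * (x * y * x⁻¹) * g = g⁻¹ * x * g * (g⁻¹ * y * g) * (g⁻¹ * x * g)⁻¹ := by group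
      rw [this]
    exact (e1.trans h1).trans e2.symm

end

theorem TOG (hFTG3 : FTG3_stmt) (hLBN : LBN_stmt) (hFEQ : FEQ_stmt) (hLBI : LBI_stmt) : TOG_stmt := by
  classical
  intro p M hM G _ _ D x θ χ hRt R hR hRD hne
  have _h0 := hFEQ
  haveI : Fact p.Prime := ⟨hM.pr⟩
  have hsub : ∀ g : G, ∑ᶠ C ∈ {C : Finset (Subgroup G) | (NCh p ⊤ R C ∧ C ≠ {R}) ∧ ∀ Q ∈ C, Q ≤ cjS g D},
      (-1 : ℂ) ^ (C.card + 1) * ((Nat.card (nrm C ⊓ nz (cjS g D) : Subgroup G) : ℂ) *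
        LL p M χ (nrm C ⊓ nz (cjS g D))) = - ((Nat.card (nz D) : ℂ) * LL p M χ (nz D)) := by
    intro g
    have hcom : ∀ c ∈ cjS g D, ∀ d ∈ cjS g D, c * d = d * c := by
      intro c hc d hd
      rw [mem_cjS] at hc hd
      have h1 := hRt.com _ hc _ hd
      have h2 : g * (g⁻¹ * c * g * (g⁻¹ * d * g)) * g⁻¹ = g * (g⁻¹ * d * g * (g⁻¹ * c * g)) * g⁻¹ := by
        rw [h1]
      have h3 : g * (g⁻¹ * c * g * (g⁻¹ * d * g)) * g⁻¹ = c * d := by group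
      have h4 : g * (g⁻¹ * d * g * (g⁻¹ * c * g)) * g⁻¹ = d * c := by group
      rw [h3, h4] at h2
      exact h2
    have hpg : IsPGroup p (cjS g D) := hRt.dfa.pgrp.map _
    have hRn : nz R = ⊤ := top_le_iff.1 hR.1.2.2
    have hcard : Nat.card (cjS g D) = Nat.card D := ((hLBI p M hM G).2 χ hRt.chi g D).2.2
    have hRle : R ≤ cjS g D := by
      intro y hy
      rw [mem_cjS]
      apply hRD
      have h1 : g⁻¹ ∈ nz R := by rw [hRn]; trivial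
      rw [Subgroup.mem_normalizer_iff] at h1
      have h2 := (h1 y).1 hy
      rw [inv_inv] at h2
      exact h2
    have hRne : R ≠ cjS g D := by
      intro h
      apply hne
      apply Subgroup.eq_of_le_of_card_ge hRD
      rw [← hcard, ← h]
    have hlt : R < cjS g D := lt_of_le_of_ne hRle hRne
    have hset : {C : Finset (Subgroup G) | (NCh p ⊤ R C ∧ C ≠ {R}) ∧ ∀ Q ∈ C, Q ≤ cjS g D} =
        {C : Finset (Subgroup G) | PCh p (cjS g D) R C ∧ C ≠ {R}} := by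
      ext C
      constructor
      · rintro ⟨⟨h1, h2⟩, h3⟩
        exact ⟨⟨h1.ch.chain, h1.ch.mem, h1.ch.bot, h3, h1.ch.pg⟩, h2⟩
      · rintro ⟨h1, h2⟩
        refine ⟨⟨⟨⟨h1.chain, h1.mem, h1.bot, fun Q _ => le_top, h1.pg⟩, ?_⟩, h2⟩, h1.le⟩
        intro Q hQ R' hR' _
        exact TOG_le_nz (cjS g D) hcom Q R' (h1.le Q hQ) (h1.le R' hR')
    rw [hset]
    have hmain := hFTG3 G p (cjS g D) (nz (cjS g D)) R hpg hlt le_rfl (by rw [hRn]; exact le_top)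
      (fun K => (Nat.card K : ℤ) * lb p M χ K)
    have hfin : ({C : Finset (Subgroup G) | PCh p (cjS g D) R C ∧ C ≠ {R}}).Finite := Set.toFinite _
    have h1 : ∑ᶠ C ∈ {C : Finset (Subgroup G) | PCh p (cjS g D) R C ∧ C ≠ {R}},
        (-1 : ℂ) ^ (C.card + 1) * ((Nat.card (nrm C ⊓ nz (cjS g D) : Subgroup G) : ℂ) *
          LL p M χ (nrm C ⊓ nz (cjS g D))) =
        ((∑ᶠ C ∈ {C : Finset (Subgroup G) | PCh p (cjS g D) R C ∧ C ≠ {R}},
          (-1 : ℤ) ^ (C.card + 1) * ((Nat.card (nz (cjS g D) ⊓ nrm C : Subgroup G) : ℤ) *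
            lb p M χ (nz (cjS g D) ⊓ nrm C)) : ℤ) : ℂ) := by
      rw [finsum_mem_eq_finite_toFinset_sum _ hfin, finsum_mem_eq_finite_toFinset_sum _ hfin]
      push_cast
      refine Finset.sum_congr rfl fun C _ => ?_
      rw [inf_comm (nrm C) (nz (cjS g D)), lb_eq_LL hLBN p M hM G _ χ]
    rw [h1]
    have h2 := congrArg (fun z : ℤ => (z : ℂ)) hmain
    refine h2.trans ?_
    push_cast
    rw [lb_eq_LL hLBN p M hM G _ χ, TOG_nz]
    have h3 := (hLBI p M hM G).2 χ hRt.chi g (nz D)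
    rw [h3.1, h3.2.2]
  -- exchange of the sums
  have hfinS : ({C : Finset (Subgroup G) | NCh p ⊤ R C ∧ C ≠ {R}}).Finite := Set.toFinite _
  haveI : Fintype G := Fintype.ofFinite G
  rw [finsum_mem_eq_finite_toFinset_sum _ hfinS]
  have h1 : ∀ C : Finset (Subgroup G), (-1 : ℂ) ^ (C.card + 1) *
      ∑ᶠ g ∈ {g : G | ∀ Q ∈ C, Q ≤ cjS g D},
        (Nat.card (nrm C ⊓ nz (cjS g D) : Subgroup G) : ℂ) * LL p M χ (nrm C ⊓ nz (cjS g D)) =
      ∑ g : G, if (∀ Q ∈ C, Q ≤ cjS g D) then (-1 : ℂ) ^ (C.card + 1) *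
        ((Nat.card (nrm C ⊓ nz (cjS g D) : Subgroup G) : ℂ) * LL p M χ (nrm C ⊓ nz (cjS g D))) else 0 := by
    intro C
    have hfinG : ({g : G | ∀ Q ∈ C, Q ≤ cjS g D}).Finite := Set.toFinite _
    rw [finsum_mem_eq_finite_toFinset_sum _ hfinG, Finset.mul_sum, ← Finset.sum_filter]
    refine Finset.sum_congr ?_ fun _ _ => rfl
    ext g
    simp
  rw [Finset.sum_congr rfl fun C _ => h1 C, Finset.sum_comm]
  have h2 : ∀ g : G, ∑ C ∈ hfinS.toFinset, (if (∀ Q ∈ C, Q ≤ cjS g D) then (-1 : ℂ) ^ (C.card + 1) *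
        ((Nat.card (nrm C ⊓ nz (cjS g D) : Subgroup G) : ℂ) * LL p M χ (nrm C ⊓ nz (cjS g D))) else 0) =
      - ((Nat.card (nz D) : ℂ) * LL p M χ (nz D)) := by
    intro g
    rw [← hsub g]
    have hfin3 : ({C : Finset (Subgroup G) | (NCh p ⊤ R C ∧ C ≠ {R}) ∧ ∀ Q ∈ C, Q ≤ cjS g D}).Finite :=
      Set.toFinite _
    rw [finsum_mem_eq_finite_toFinset_sum _ hfin3, ← Finset.sum_filter]
    refine Finset.sum_congr ?_ fun _ _ => rfl
    ext C
    simp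
  rw [Finset.sum_congr rfl fun g _ => h2 g, Finset.sum_const, Finset.card_univ, nsmul_eq_mul,
    ← Nat.card_eq_fintype_card]
  ring

end Pool.Agent.FI4I
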